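import Mathlib

/-!
Definitions for the separated bump problem at p = 2. They are stated for a space `E` with a
measure `volume` and are used for Euclidean space with Lebesgue measure.
-/

namespace Pool.Agent.MP_93f72d_an

open MeasureTheory Filter Topology
open scoped ENNReal

/-- A Young function on the half-line. -/
structure IsYoung (Φ : ℝ → ℝ) : Prop where
  cont : ContinuousOn Φ (Set.Ici 0)
  convex : ConvexOn ℝ (Set.Ici 0) Φ
  mono : MonotoneOn Φ (Set.Ici 0)
  zero : Φ 0 = 0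
  superlinear : Tendsto (fun t => Φ t / t) atTop atTop

/-- A weight: a nonnegative locally integrable function. -/
structure IsWeight {E : Type} [NormedAddCommGroup E] [MeasureSpace E] (w : E → ℝ) : Prop where
  nonneg : ∀ x, 0 ≤ w x
  locInt : LocallyIntegrable w volume

/-- The average over `Q` of a nonnegative real function. -/
noncomputable def avg {E : Type} [MeasureSpace E] (g : E → ℝ) (Q : Set E) : ℝ≥0∞ :=
  (∫⁻ x in Q, ENNReal.ofReal (g x)) / volume Q

/-- The normalised Luxemburg norm on `Q` (infinite if no value is admissible). -/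
noncomputable def lux {E : Type} [MeasureSpace E] (Φ : ℝ → ℝ) (f : E → ℝ) (Q : Set E) : ℝ≥0∞ :=
  ⨅ (l : ℝ) (_ : 0 < l) (_ : avg (fun x => Φ (|f x| / l)) Q ≤ 1), ENNReal.ofReal l

/-- The half-open cube with sides parallel to the axes, lower corner `a` and side length `r`. -/
def axisCube {d : ℕ} (a : EuclideanSpace ℝ (Fin d)) (r : ℝ) : Set (EuclideanSpace ℝ (Fin d)) :=
  {x | ∀ i, a i ≤ x i ∧ x i < a i + r}

/-- The one-sided bump condition: the supremum over all cubes of the Luxemburg norm of `u` times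
the average of `v` is finite. -/
structure Bump {d : ℕ} (Φ : ℝ → ℝ) (u v : EuclideanSpace ℝ (Fin d) → ℝ) : Prop where
  out : ⨆ (a : EuclideanSpace ℝ (Fin d)) (r : ℝ) (_ : 0 < r),
    lux Φ u (axisCube a r) * avg v (axisCube a r) < ∞

/-- A bounded linear operator on `L²`. -/
structure L2Op (E : Type) [MeasureSpace E] (𝕜 : Type) [RCLike 𝕜] where
  op : Lp 𝕜 2 (volume : Measure E) →L[𝕜] Lp 𝕜 2 (volume : Measure E)

/-- `K` is a Calderon-Zygmund kernel of `T` in dimension `d`, with constant `C` and exponent `α`. -/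
structure IsCZKernel {E : Type} [NormedAddCommGroup E] [MeasureSpace E] {𝕜 : Type} [RCLike 𝕜]
    (T : L2Op E 𝕜) (d : ℕ) (K : E → E → 𝕜) (C α : ℝ) : Prop where
  repr : ∀ (f : E → 𝕜) (hf : MemLp f 2 volume), HasCompactSupport f →
    ∀ᵐ x, x ∉ tsupport f → T.op (hf.toLp f) x = ∫ y, K x y * f y
  size : ∀ x y, x ≠ y → ‖K x y‖ ≤ C * ‖x - y‖ ^ (-(d : ℝ))
  smooth : ∀ x x' y, x ≠ y → ‖x - x'‖ ≤ ‖x - y‖ / 2 →
    ‖K x y - K x' y‖ + ‖K y x - K y x'‖ ≤ C * ‖x - x'‖ ^ α * ‖x - y‖ ^ (-(d : ℝ) - α)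

/-- A Calderon-Zygmund operator in dimension `d`. -/
structure IsCZO {E : Type} [NormedAddCommGroup E] [MeasureSpace E] {𝕜 : Type} [RCLike 𝕜]
    (T : L2Op E 𝕜) (d : ℕ) : Prop where
  out : ∃ K C α, 0 < α ∧ α ≤ 1 ∧ IsCZKernel T d K C α

/-- `h` is the value at the integrable function `g` of the extension of `T` to `L¹`: whenever
square integrable functions `u n` tend to `g` in `L¹`, the functions `T (u n)` tend to `h` in
measure. -/
structure IsExt {E : Type} [MeasureSpace E] {𝕜 : Type} [RCLike 𝕜] (T : L2Op E 𝕜)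
    (g h : E → 𝕜) : Prop where
  out : ∀ u : ℕ → Lp 𝕜 2 (volume : Measure E),
    Tendsto (fun n => eLpNorm (fun x => u n x - g x) 1 volume) atTop (𝓝 0) →
      TendstoInMeasure volume (fun n x => T.op (u n) x) atTop h

/-- The norm of `L²(w)`. -/
noncomputable def wnorm {E : Type} [MeasureSpace E] {𝕜 : Type} [RCLike 𝕜] (w : E → ℝ)
    (f : E → 𝕜) : ℝ≥0∞ :=
  eLpNorm f 2 (volume.withDensity (fun x => ENNReal.ofReal (w x)))

/-- `T(· w)` is bounded from `L²(w)` into `L²(σ)`. -/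
structure TwoWeightBounded {E : Type} [NormedAddCommGroup E] [MeasureSpace E] {𝕜 : Type}
    [RCLike 𝕜] (T : L2Op E 𝕜) (w σ : E → ℝ) : Prop where
  out : ∃ C : ℝ≥0∞, C < ∞ ∧ ∀ f : E → 𝕜, AEStronglyMeasurable f volume →
    (∃ M, ∀ x, ‖f x‖ ≤ M) → HasCompactSupport f →
      (∃ h, IsExt T (fun x => f x * (w x : 𝕜)) h) ∧
        ∀ h, IsExt T (fun x => f x * (w x : 𝕜)) h → wnorm σ h ≤ C * wnorm w f

end Pool.Agent.MP_93f72d_an
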